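import Pool.Agent.N936.TC.Stm

set_option autoImplicit false

/-!
# TC/CPT (helper491): the sets W and K are compact
-/

namespace Pool.Agent.N491.TC2.CPT

open Set Topology Pool.Agent.N936.TC

/-- the pattern is closed -/
theorem closed_M1 (i : Bool) : IsClosed {p : ℝ × ℝ | M1 i p.1 p.2} := by
  have e1 : ∀ c : ℝ, IsClosed {p : ℝ × ℝ | p.1 = c} := fun c =>
    isClosed_eq continuous_fst continuous_const
  have e2 : ∀ c : ℝ, IsClosed {p : ℝ × ℝ | p.2 = c} := fun c =>
    isClosed_eq continuous_snd continuous_const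
  have l1 : ∀ c : ℝ, IsClosed {p : ℝ × ℝ | p.1 ≤ c} := fun c =>
    isClosed_le continuous_fst continuous_const
  have l2 : ∀ c : ℝ, IsClosed {p : ℝ × ℝ | p.2 ≤ c} := fun c =>
    isClosed_le continuous_snd continuous_const
  have g1 : ∀ c : ℝ, IsClosed {p : ℝ × ℝ | c ≤ p.1} := fun c =>
    isClosed_le continuous_const continuous_fst
  have g2 : ∀ c : ℝ, IsClosed {p : ℝ × ℝ | c ≤ p.2} := fun c =>
    isClosed_le continuous_const continuous_snd
  cases i with
  | false =>
    have h := (e2 (1/8)).union (((l1 (1/4)).inter (e2 (5/8))).union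
      (((e1 (1/4)).inter ((g2 (1/8)).inter (l2 (5/8)))).union
        ((g1 (3/8)).inter ((l1 (5/8)).inter ((g2 (1/16)).inter (l2 (3/16)))))))
    exact h
  | true =>
    have h := (e2 (5/8)).union (((e1 (1/4)).inter ((g2 (5/8)).union (l2 (1/8)))).union
      ((l1 (1/4)).inter (e2 (1/8))))
    exact h

/-- the image under `(Φ, Φ)` of the pairs of points whose coordinates satisfy a closed condition -/
theorem cpt_gen {X : Type} [TopologicalSpace X] (Φ : Q × Bool × I → X) (hΦ : Continuous Φ)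
    (C : Bool → Set (I × I)) (hC : ∀ i, IsClosed (C i)) :
    IsCompact {z : X × X | ∃ (q : Q) (i : Bool) (s : I) (r : Q) (j : Bool) (t : I),
      (s, t) ∈ C i ∧ z = (Φ (q, i, s), Φ (r, j, t))} := by
  have hcl : ∀ i : Bool, IsClosed {z : (Q × Bool × I) × (Q × Bool × I) |
      z.1.2.1 = i ∧ (z.1.2.2, z.2.2.2) ∈ C i} := by
    intro i
    have h1 : IsClosed {z : (Q × Bool × I) × (Q × Bool × I) | z.1.2.1 = i} :=
      isClosed_eq (by fun_prop) continuous_const
    have h2 : IsClosed ((fun z : (Q × Bool × I) × (Q × Bool × I) => (z.1.2.2, z.2.2.2)) ⁻¹' C i) :=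
      (hC i).preimage (by fun_prop)
    exact h1.inter h2
  have hK : IsCompact (⋃ i : Bool, {z : (Q × Bool × I) × (Q × Bool × I) |
      z.1.2.1 = i ∧ (z.1.2.2, z.2.2.2) ∈ C i}) := (isClosed_iUnion_of_finite hcl).isCompact
  have hcont : Continuous fun z : (Q × Bool × I) × (Q × Bool × I) => (Φ z.1, Φ z.2) := by fun_prop
  have himg := hK.image hcont
  convert himg using 1
  ext z
  constructor
  · rintro ⟨q, i, s, r, j, t, h, rfl⟩
    refine ⟨((q, i, s), (r, j, t)), ?_, rfl⟩
    rw [Set.mem_iUnion]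
    exact ⟨i, rfl, h⟩
  · rintro ⟨⟨⟨q, i, s⟩, ⟨r, j, t⟩⟩, h, rfl⟩
    rw [Set.mem_iUnion] at h
    obtain ⟨i', h1, h2⟩ := h
    change i = i' at h1
    subst h1
    exact ⟨q, i, s, r, j, t, h2, rfl⟩

theorem t_CPT : S_CPT := by
  intro X _ Φ hΦ
  constructor
  · have h := cpt_gen Φ hΦ (fun i => {p : I × I | M1 i (p.1 : ℝ) (p.2 : ℝ)}) (fun i => by
      have h1 := (closed_M1 i).preimage
        (show Continuous fun p : I × I => ((p.1 : ℝ), (p.2 : ℝ)) by fun_prop)
      exact h1)
    exact h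
  · have h := cpt_gen Φ hΦ (fun i => {p : I × I | M1 i (1 - (p.1 : ℝ)) (1 - (p.2 : ℝ))})
      (fun i => by
        have h1 := (closed_M1 i).preimage
          (show Continuous fun p : I × I => (1 - (p.1 : ℝ), 1 - (p.2 : ℝ)) by fun_prop)
        exact h1)
    exact h

end Pool.Agent.N491.TC2.CPT
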